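import Pool.Agent.H37.ZF.LOC
import Pool.Agent.H69.ZF.LQB
import Pool.Agent.H19.ZF.LTB
import Pool.Agent.H94.ZF.PRI
import Pool.Agent.H69.ZF.EPR
import Pool.Agent.H5.ZF.TAI
import Pool.Agent.H96.ZF.NEW
import Pool.Agent.H62.ZF.ESL
import Pool.Agent.H40.ZF.HTC
import Pool.Agent.H1.ZF.SOB
import Pool.Agent.H52.ZF.ESD
import Pool.Agent.H76.ZF.ESQ
import Pool.Agent.H78.ZF.LBD
import Pool.Agent.H17.ZF.MID
import Pool.Agent.H84.ZF.PRD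
import Pool.Agent.H14.ZF.NZR

/-!
Board zf (MP_52e316_nt): the closed rows of targets A.
-/

set_option autoImplicit false

namespace Pool.Agent.H23.ZF

open Pool.Agent.H27.ZF

theorem c_LBD : T_LBD := Pool.Agent.H78.ZF.pf_LBD Pool.Agent.H37.ZF.pf_LOC

theorem c_MID : T_MID :=
  Pool.Agent.H17.ZF.pf_MID Pool.Agent.H96.ZF.pf_NEW Pool.Agent.H62.ZF.pf_ESL c_LBD
    Pool.Agent.H52.ZF.pf_ESD Pool.Agent.H76.ZF.pf_ESQ

theorem c_PRD : T_PRD :=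
  Pool.Agent.H84.ZF.pf_PRD c_MID Pool.Agent.H69.ZF.pf_LQB Pool.Agent.H19.ZF.pf_LTB
    Pool.Agent.H94.ZF.pf_PRI

theorem c_NZR : T_NZR :=
  Pool.Agent.H14.ZF.pf_NZR c_PRD Pool.Agent.H40.ZF.pf_HTC Pool.Agent.H69.ZF.pf_EPR
    Pool.Agent.H5.ZF.pf_TAI

theorem c_SOB : T_SOB := Pool.Agent.H1.ZF.pf_SOB

end Pool.Agent.H23.ZF
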