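import Pool.Agent.H31.THN.CGO

/-!
Board zf (MP_52e316_nt), row LSW: the large sieve for the Dirichlet polynomials with the coefficients
`b n * lam n` at one level, with all the admissible weights.
-/

set_option autoImplicit false

namespace Pool.Agent.H23.ZF

open MeasureTheory Pool.Agent.H27.L1.H34.GM Pool.Agent.H27.L1.H34.GZ Pool.Agent.H27.L1.H34.GU Pool.Agent.H27.L1.H34.GA
open Pool.Agent.H27.L1.H68.GHY Pool.Agent.H27.L1.H34.GHY Pool.Agent.H27.L1.H34.GZZ Pool.Agent.H27.L1.H68.GHK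
open Pool.Agent.H27.L1.H34.GHK (pl T_WYE pl_perm pl_mono cuspU_of isl_eq orthn_sub)
open Pool.Agent.H47.THN (BES1 LSD1 LT2 T_BO1 T_BW1 T_LS1 T_LQ1)

/-- the Dirichlet polynomial `∑ b n * lam n * n ^ (-s)` -/
noncomputable def DB (lam b : ℕ → ℂ) (y : ℝ) (s : ℂ) : ℂ :=
  ∑ n ∈ Finset.Icc 1 ⌊y⌋₊, b n * lam n * (n : ℂ) ^ (-s)

/-- the coefficients adapted to the normalisation of `DP` -/
noncomputable def nb (m : ℕ) (b : ℕ → ℂ) (y τ : ℝ) (n : ℕ) : ℂ :=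
  b n * (n : ℂ) ^ (-((τ : ℂ) * Complex.I)) * (((y / 2 / n) ^ (((m : ℝ) - 1) / 2) : ℝ) : ℂ)

lemma coe_nb {m : ℕ} (hm1 : 1 ≤ m) {b : ℕ → ℂ} {y : ℝ} (hy : 1 ≤ y) (τ : ℝ) (h : Coe y b) :
    Coe y (nb m b y τ) := by
  have hκ : 0 ≤ ((m : ℝ) - 1) / 2 := by
    have : (1 : ℝ) ≤ m := by exact_mod_cast hm1
    linarith
  constructor
  · intro n
    by_cases hb : b n = 0
    · unfold nb
      rw [hb, zero_mul, zero_mul, norm_zero]
      exact zero_le_one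
    · obtain ⟨h1, h2⟩ := h.supp n hb
      have hn0 : (0 : ℝ) < n := by linarith
      have hn : (n : ℂ) ≠ 0 := by
        have : n ≠ 0 := by
          rintro rfl
          simp at hn0
        exact_mod_cast this
      unfold nb
      rw [norm_mul, norm_mul, Complex.norm_real, Real.norm_eq_abs,
        abs_of_nonneg (Real.rpow_nonneg (by positivity) _)]
      have h3 : ‖(n : ℂ) ^ (-((τ : ℂ) * Complex.I))‖ = 1 := by
        rw [Complex.norm_natCast_cpow_of_pos (by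
          have : n ≠ 0 := by
            rintro rfl
            simp at hn0
          omega)]
        simp
      rw [h3, mul_one]
      have h4 : (y / 2 / n) ^ (((m : ℝ) - 1) / 2) ≤ 1 := by
        apply Real.rpow_le_one (by positivity) _ hκ
        rw [div_le_one hn0]
        exact h1.le
      exact mul_le_one₀ (h.bd n) (Real.rpow_nonneg (by positivity) _) h4
  · intro n hn
    apply h.supp n
    rintro hb
    apply hn
    unfold nb
    rw [hb, zero_mul, zero_mul]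

lemma dp_nb {m : ℕ} {b : ℕ → ℂ} {y : ℝ} (hy : 1 ≤ y) (τ t : ℝ) (lam : ℕ → ℂ) :
    DP m lam (nb m b y τ) y t =
      (((y / 2) ^ (((m : ℝ) - 1) / 2) : ℝ) : ℂ) * DB lam b y (((t + τ : ℝ) : ℂ) * Complex.I) := by
  unfold DP DB
  rw [Finset.mul_sum]
  refine Finset.sum_congr rfl fun n hn => ?_
  have hn1 := (Finset.mem_Icc.1 hn).1
  have hn0 : (0 : ℝ) < n := by exact_mod_cast hn1
  have hnc : (n : ℂ) ≠ 0 := by
    have : n ≠ 0 := by omega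
    exact_mod_cast this
  unfold tl nb
  have h1 : (n : ℂ) ^ (((m : ℂ) - 1) / 2) = (((n : ℝ) ^ (((m : ℝ) - 1) / 2) : ℝ) : ℂ) := by
    rw [Complex.ofReal_cpow hn0.le]
    push_cast
    rfl
  have h2 : (((y / 2 / n) ^ (((m : ℝ) - 1) / 2) : ℝ) : ℂ) *
      (((n : ℝ) ^ (((m : ℝ) - 1) / 2) : ℝ) : ℂ) = (((y / 2) ^ (((m : ℝ) - 1) / 2) : ℝ) : ℂ) := by
    rw [← Complex.ofReal_mul, ← Real.mul_rpow (by positivity) hn0.le, div_mul_cancel₀ _ hn0.ne']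
  have h3 : (n : ℂ) ^ (-(((t + τ : ℝ) : ℂ) * Complex.I)) =
      (n : ℂ) ^ (-((τ : ℂ) * Complex.I)) * (n : ℂ) ^ (-((t : ℂ) * Complex.I)) := by
    rw [← Complex.cpow_add _ _ hnc]
    congr 1
    push_cast
    ring
  rw [h1, h3, ← h2]
  ring

/-- from `LT2` to the polynomials `DB` -/
lemma db_of_lt2 {m : ℕ} (hm1 : 1 ≤ m) {ε C : ℝ} {K : ℕ} {ι : Type} [Fintype ι]
    {W : ι → ENNReal} {lam : ι → ℕ → ℂ} {N : ℕ} {δ : ℝ}
    (h : LT2 m ε C K W lam N δ) {y : ℝ} (hy : 1 ≤ y) {b : ℕ → ℂ} (hb : Coe y b) (τ : ℝ) :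
    ∑ i, W i * ∫⁻ t in Set.Icc (τ - δ⁻¹) (τ + δ⁻¹),
      ENNReal.ofReal (‖DB (lam i) b y ((t : ℂ) * Complex.I)‖ ^ 2) ≤
      ENNReal.ofReal (2 ^ (m - 1) * (C * δ⁻¹ ^ (m ^ 2) * (N : ℝ) ^ ((m : ℝ) + ε) *
        (1 + Real.log (y * N * δ⁻¹)) ^ K * y * (1 + δ ^ m * y / N) ^ m)) := by
  have hy0 : 0 < y := by linarith
  have h0 := h y (nb m b y τ) hy (coe_nb hm1 hy τ hb)
  obtain ⟨c, hc⟩ : ∃ c : ℝ, c = (y / 2) ^ (((m : ℝ) - 1) / 2) := ⟨_, rfl⟩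
  have hc0 : 0 < c := by
    rw [hc]
    positivity
  have hc2 : c ^ 2 = (y / 2) ^ (m - 1) := by
    rw [hc, ← Real.rpow_natCast, ← Real.rpow_mul (by positivity), ← Real.rpow_natCast]
    congr 1
    rw [Nat.cast_sub hm1]
    push_cast
    ring
  have h1 : ∀ i, ∫⁻ t in Set.Icc (τ - δ⁻¹) (τ + δ⁻¹),
      ENNReal.ofReal (‖DB (lam i) b y ((t : ℂ) * Complex.I)‖ ^ 2) =
      ENNReal.ofReal ((c ^ 2)⁻¹) * ∫⁻ t in Set.Icc (-δ⁻¹) δ⁻¹,
        ENNReal.ofReal (‖DP m (lam i) (nb m b y τ) y t‖ ^ 2) := by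
    intro i
    have e1 := (measurePreserving_add_right (volume : Measure ℝ) τ).setLIntegral_comp_preimage_emb
      (measurableEmbedding_addRight τ)
      (fun t : ℝ => ENNReal.ofReal (‖DB (lam i) b y ((t : ℂ) * Complex.I)‖ ^ 2))
      (Set.Icc (τ - δ⁻¹) (τ + δ⁻¹))
    rw [Set.preimage_add_const_Icc, show τ - δ⁻¹ - τ = -δ⁻¹ by ring,
      show τ + δ⁻¹ - τ = δ⁻¹ by ring] at e1
    rw [← e1, ← lintegral_const_mul' _ _ ENNReal.ofReal_ne_top]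
    refine lintegral_congr fun t => ?_
    rw [dp_nb hy, ← hc, norm_mul, Complex.norm_real, Real.norm_eq_abs, abs_of_pos hc0, mul_pow,
      ← ENNReal.ofReal_mul (by positivity)]
    congr 1
    field_simp
  calc ∑ i, W i * ∫⁻ t in Set.Icc (τ - δ⁻¹) (τ + δ⁻¹),
        ENNReal.ofReal (‖DB (lam i) b y ((t : ℂ) * Complex.I)‖ ^ 2)
      = ENNReal.ofReal ((c ^ 2)⁻¹) * ∑ i, W i * ∫⁻ t in Set.Icc (-δ⁻¹) δ⁻¹,
        ENNReal.ofReal (‖DP m (lam i) (nb m b y τ) y t‖ ^ 2) := by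
        rw [Finset.mul_sum]
        refine Finset.sum_congr rfl fun i _ => ?_
        rw [h1 i]
        ring
    _ ≤ ENNReal.ofReal ((c ^ 2)⁻¹) * ENNReal.ofReal (C * δ⁻¹ ^ (m ^ 2) *
        (N : ℝ) ^ ((m : ℝ) + ε) * (1 + Real.log (y * N * δ⁻¹)) ^ K * y ^ m *
        (1 + δ ^ m * y / N) ^ m) := by gcongr
    _ = _ := by
        rw [← ENNReal.ofReal_mul (by positivity)]
        congr 1
        rw [hc2, div_pow, inv_div]
        have e2 : y ^ m = y ^ (m - 1) * y := by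
          rw [← pow_succ]
          congr 1
          omega
        rw [e2]
        have : y ^ (m - 1) ≠ 0 := (pow_pos hy0 _).ne'
        field_simp

/-- numbers -/
lemma db_num {m K : ℕ} {ε C c' : ℝ} (hε : 0 < ε) (hC : 0 < C) (hc' : 0 < c') (hc'1 : c' ≤ 1 / 2) :
    ∃ C' : ℝ, 0 < C' ∧ ∀ (Nr P y : ℝ), 1 ≤ Nr → 1 ≤ P → 1 ≤ y →
      2 ^ (m - 1) * (C * (c' / P)⁻¹ ^ (m ^ 2) * Nr ^ ((m : ℝ) + ε / 2) *
        (1 + Real.log (y * Nr * (c' / P)⁻¹)) ^ K * y * (1 + (c' / P) ^ m * y / Nr) ^ m) ≤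
      C' * (Nr * P * y) ^ ε * (Nr ^ m * P ^ (m ^ 2)) * y * (1 + y / (Nr * P ^ m)) ^ m := by
  obtain ⟨C1, hC1, hlog⟩ := Pool.Agent.H27.L1.H37.GHY.log_pow_le K (half_pos hε)
  have hc1 : 1 ≤ c'⁻¹ := by
    rw [one_le_inv₀ hc']
    linarith
  obtain ⟨B, hB⟩ : ∃ B : ℝ, B = 1 + Real.log c'⁻¹ := ⟨_, rfl⟩
  have hB1 : 1 ≤ B := by
    rw [hB]
    have := Real.log_nonneg hc1
    linarith
  refine ⟨2 ^ (m - 1) * (C * c'⁻¹ ^ (m ^ 2) * (B ^ K * C1)), by positivity, ?_⟩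
  intro Nr P y hN hP hy
  have hN0 : 0 < Nr := by linarith
  have hP0 : 0 < P := by linarith
  have hy0 : 0 < y := by linarith
  have hz : 1 ≤ Nr * P * y := by
    have h1 : 1 ≤ Nr * P := by nlinarith
    nlinarith
  have hz0 : 0 < Nr * P * y := by linarith
  have e1 : (c' / P)⁻¹ = c'⁻¹ * P := by
    rw [inv_div, div_eq_inv_mul]
  have hlz := Real.log_nonneg hz
  have h1 : 1 + Real.log (y * Nr * (c' / P)⁻¹) ≤ B * (1 + Real.log (Nr * P * y)) := by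
    rw [e1, show y * Nr * (c'⁻¹ * P) = c'⁻¹ * (Nr * P * y) by ring,
      Real.log_mul (by positivity) hz0.ne', hB]
    have := Real.log_nonneg hc1
    nlinarith
  have h0 : 0 ≤ 1 + Real.log (y * Nr * (c' / P)⁻¹) := by
    have : 1 ≤ y * Nr * (c' / P)⁻¹ := by
      rw [e1, show y * Nr * (c'⁻¹ * P) = c'⁻¹ * (Nr * P * y) by ring]
      nlinarith
    have := Real.log_nonneg this
    linarith
  have h2 : (1 + Real.log (y * Nr * (c' / P)⁻¹)) ^ K ≤ B ^ K * (C1 * (Nr * P * y) ^ (ε / 2)) := by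
    refine (pow_le_pow_left₀ h0 h1 K).trans ?_
    rw [mul_pow]
    exact mul_le_mul_of_nonneg_left (hlog _ hz) (by positivity)
  have h3 : Nr ^ ((m : ℝ) + ε / 2) ≤ Nr ^ m * (Nr * P * y) ^ (ε / 2) := by
    rw [Real.rpow_add hN0, Real.rpow_natCast]
    refine mul_le_mul_of_nonneg_left ?_ (by positivity)
    refine Real.rpow_le_rpow hN0.le ?_ (half_pos hε).le
    have h4 : 1 ≤ P * y := by nlinarith
    nlinarith
  have h4 : (c' / P) ^ m * y / Nr ≤ y / (Nr * P ^ m) := by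
    rw [div_pow, div_mul_eq_mul_div, div_div, div_le_div_iff₀ (by positivity) (by positivity)]
    have : c' ^ m ≤ 1 := pow_le_one₀ hc'.le (by linarith)
    calc c' ^ m * y * (Nr * P ^ m) ≤ 1 * y * (Nr * P ^ m) := by gcongr
      _ = y * (P ^ m * Nr) := by ring
  have h5 : (1 + (c' / P) ^ m * y / Nr) ^ m ≤ (1 + y / (Nr * P ^ m)) ^ m := by
    have : 0 ≤ (c' / P) ^ m * y / Nr := by positivity
    exact pow_le_pow_left₀ (by linarith) (by linarith) m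
  have hE : (Nr * P * y) ^ (ε / 2) * (Nr * P * y) ^ (ε / 2) = (Nr * P * y) ^ ε := by
    rw [← Real.rpow_add hz0, add_halves]
  calc 2 ^ (m - 1) * (C * (c' / P)⁻¹ ^ (m ^ 2) * Nr ^ ((m : ℝ) + ε / 2) *
        (1 + Real.log (y * Nr * (c' / P)⁻¹)) ^ K * y * (1 + (c' / P) ^ m * y / Nr) ^ m)
      ≤ 2 ^ (m - 1) * (C * (c' / P)⁻¹ ^ (m ^ 2) * (Nr ^ m * (Nr * P * y) ^ (ε / 2)) *
        (B ^ K * (C1 * (Nr * P * y) ^ (ε / 2))) * y * (1 + y / (Nr * P ^ m)) ^ m) := by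
        gcongr
    _ = 2 ^ (m - 1) * (C * c'⁻¹ ^ (m ^ 2) * (B ^ K * C1)) *
        ((Nr * P * y) ^ (ε / 2) * (Nr * P * y) ^ (ε / 2)) * (Nr ^ m * P ^ (m ^ 2)) * y *
          (1 + y / (Nr * P ^ m)) ^ m := by
        rw [e1, mul_pow]
        ring
    _ = _ := by rw [hE]

/-- the bound for given weights -/
def DBB (m : ℕ) (ε C : ℝ) {ι : Type} [Fintype ι] (W : ι → ENNReal) (lam : ι → ℕ → ℂ)
    (N : ℕ) (P : ℝ) : Prop :=
  ∀ (y : ℝ) (b : ℕ → ℂ), 1 ≤ y → Coe y b → ∀ τ : ℝ,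
    ∑ i, W i * ∫⁻ t in Set.Icc (τ - P) (τ + P),
      ENNReal.ofReal (‖DB (lam i) b y ((t : ℂ) * Complex.I)‖ ^ 2) ≤
      ENNReal.ofReal (C * ((N : ℝ) * P * y) ^ ε * ((N : ℝ) ^ m * P ^ (m ^ 2)) * y *
        (1 + y / (N * P ^ m)) ^ m)

/-- from the inequality of Bessel -/
lemma db_of_bes {m : ℕ} (hm1 : 1 ≤ m) {ε : ℝ} (hε : 0 < ε) {χ : ℝ → ℝ} (hχ : Prof χ)
    {cM CM : ℝ} {AM : ℕ} (hcM : 0 < cM) (hCM : 1 ≤ CM) {c' : ℝ} (hc' : 0 < c')
    (hc'1 : c' ≤ 1 / 2) : ∃ C : ℝ, 0 < C ∧ ∀ (N : ℕ) [NeZero N] (D : Set (V m)), 1 ≤ N →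
    DomZ m D → ∀ P : ℝ, 1 ≤ P → ∀ (ι : Type) [Fintype ι] (W : ι → ENNReal) (lam : ι → ℕ → ℂ),
    (∀ i, W i ≠ ⊤) → (∀ Y : ℝ, 2 ≤ Y → CM * N * (c' / P)⁻¹ ^ AM ≤ Y →
      BES1 m W lam N D χ cM (c' / P) Y) → DBB m ε C W lam N P := by
  obtain ⟨Ca, Ka, hCa, hLa⟩ := Pool.Agent.H23.THN.pf_LS1 Pool.Agent.H27.L1.H23.GHY.All.c_ENG
      Pool.Agent.H27.L1.H23.GHY.All.c_TBS m hm1 (ε / 2) (by positivity) χ hχ cM CM AM hcM hCM
  obtain ⟨Cq, hCq, hQ⟩ := Pool.Agent.H14.THN.pf_LQ1 m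
  obtain ⟨C', hC', hnum⟩ := db_num (m := m) (K := Ka) hε (C := Cq * Ca) (by positivity) hc' hc'1
  refine ⟨C', hC', ?_⟩
  intro N _ D hN1 hD P hP ι _ W lam hWt hBes y b hy hb τ
  have hP0 : 0 < P := by linarith
  have hδ0 : 0 < c' / P := by positivity
  have hδ1 : c' / P ≤ 1 / 2 := by
    have : c' / P ≤ c' := div_le_self hc'.le hP
    linarith
  have h1 := hQ (ε / 2) Ca Ka ι W lam N (c' / P) hδ0 hδ1
    (hLa N D hN1 hD (c' / P) hδ0 hδ1 ι W lam hWt hBes)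
  have h2 := db_of_lt2 hm1 h1 hy hb τ
  have hN1' : (1 : ℝ) ≤ N := by exact_mod_cast hN1
  have hPd : P ≤ (c' / P)⁻¹ := by
    rw [inv_div, le_div_iff₀ hc']
    nlinarith
  refine le_trans ?_ (h2.trans (ENNReal.ofReal_le_ofReal (hnum N P y hN1' hP hy)))
  refine Finset.sum_le_sum fun i _ => mul_le_mul' le_rfl ?_
  exact lintegral_mono_set (Set.Icc_subset_Icc (by linarith) (by linarith))

open Classical in
/-- orthonormal forms, weights `1` -/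
theorem db_one (m : ℕ) (hm1 : 1 ≤ m) (ε : ℝ) (hε : 0 < ε) : ∃ C : ℝ, 0 < C ∧
    ∀ (N : ℕ) [NeZero N] (T : ℕ → Finset (ZM m)) (D : Set (V m)), SysZ m N T D →
      ∀ P : ℝ, 1 ≤ P → ∀ (S : Type) [Fintype S] [DecidableEq S]
        (F : S → Mat m → VN m N → ℂ) (lam : S → ℕ → ℂ),
        (∀ i, CusB m N T (F i) (lam i) ∧ Lip D (F i) P) → Orthn D F →
          DBB m ε C (fun _ : S => 1) lam N P := by
  obtain ⟨χ, hχ⟩ := pf_PRF
  obtain ⟨c0, CM, AM, hc0, hCM, hK⟩ := Pool.Agent.H31.THN.c_BO1 m χ hm1 hχ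
  obtain ⟨c', hc', hc'1, hc'0⟩ : ∃ c' : ℝ, 0 < c' ∧ c' ≤ 1 / 2 ∧ c' ≤ c0 / 2 :=
    ⟨min (1 / 2) (c0 / 2), lt_min (by norm_num) (by positivity), min_le_left _ _,
      min_le_right _ _⟩
  obtain ⟨C, hC, h⟩ := db_of_bes hm1 hε hχ hc0 hCM hc' hc'1
  refine ⟨C, hC, ?_⟩
  intro N _ T D hS P hP S _ _ F lam hF hO
  have hP0 : 0 < P := by linarith
  have hδ0 : 0 < c' / P := by positivity
  have hδP : c' / P * P = c' := by field_simp
  have hδP1 : c' / P ≤ c' / P * P := le_mul_of_one_le_right hδ0.le hP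
  have hδ1 : c' / P ≤ 1 / 2 := by linarith
  have hδP2 : c' / P * (1 + P) ≤ c0 := by linarith
  have hN1 : 1 ≤ N := by
    have := hS.two_le
    omega
  exact h N D hN1 hS.dom P hP S (fun _ => 1) lam (fun _ => ENNReal.one_ne_top) (fun Y _ hY =>
    hK N T D hS S F lam P (fun i => ⟨(hF i).1, (hF i).2, mou_nU F hO i⟩) hO hP0.le (c' / P) hδ0
      hδ1 hδP2 Y hY)

open Classical in
/-- forms which generate orthogonal spaces, weights `1 / Hn` -/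
theorem db_hn (m : ℕ) (hm1 : 1 ≤ m) (r ε : ℝ) (hr : 0 < r) (hε : 0 < ε) : ∃ C : ℝ, 0 < C ∧
    ∀ (N : ℕ) [NeZero N] (T : ℕ → Finset (ZM m)) (D : Set (V m)), SysZ m N T D →
      ∀ P : ℝ, 1 ≤ P → ∀ (S : Type) [Fintype S] [DecidableEq S]
        (F : S → Mat m → VN m N → ℂ) (lam : S → ℕ → ℂ),
        (∀ i, CusB m N T (F i) (lam i) ∧ Lip D (F i) P) → OrS D F →
          DBB m ε C (fun i => ENNReal.ofReal (Hn r D (F i))⁻¹) lam N P := by
  obtain ⟨χ, hχ⟩ := pf_PRF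
  obtain ⟨c0, CM, AM, hc0, hCM, hK⟩ := Pool.Agent.H31.THN.c_BW1 m χ r hm1 hχ hr
  obtain ⟨c', hc', hc'1, hc'0⟩ : ∃ c' : ℝ, 0 < c' ∧ c' ≤ 1 / 2 ∧ c' ≤ c0 / 2 :=
    ⟨min (1 / 2) (c0 / 2), lt_min (by norm_num) (by positivity), min_le_left _ _,
      min_le_right _ _⟩
  obtain ⟨C, hC, h⟩ := db_of_bes hm1 hε hχ hc0 hCM hc' hc'1
  refine ⟨C, hC, ?_⟩
  intro N _ T D hS P hP S _ _ F lam hF hO
  have hP0 : 0 < P := by linarith
  have hδ0 : 0 < c' / P := by positivity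
  have hδP : c' / P * P = c' := by field_simp
  have hδP1 : c' / P ≤ c' / P * P := le_mul_of_one_le_right hδ0.le hP
  have hδ1 : c' / P ≤ 1 / 2 := by linarith
  have hδP2 : c' / P * (1 + P) ≤ c0 := by linarith
  have hN1 : 1 ≤ N := by
    have := hS.two_le
    omega
  exact h N D hN1 hS.dom P hP S _ lam (fun _ => ENNReal.ofReal_ne_top) (fun Y _ hY =>
    hK N T D hS S F lam P hF hO hP0.le (c' / P) hδ0 hδ1 hδP2 Y hY)

lemma dbb_mul {m : ℕ} {ε C CH : ℝ} (hCH : 0 ≤ CH) {ι : Type} [Fintype ι] {W W' : ι → ENNReal}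
    {lam : ι → ℕ → ℂ} {N : ℕ} {P : ℝ} (h : DBB m ε C W lam N P)
    (hW : ∀ i, W' i ≤ ENNReal.ofReal CH * W i) : DBB m ε (CH * C) W' lam N P := by
  intro y b hy hb τ
  calc ∑ i, W' i * ∫⁻ t in Set.Icc (τ - P) (τ + P),
        ENNReal.ofReal (‖DB (lam i) b y ((t : ℂ) * Complex.I)‖ ^ 2)
      ≤ ∑ i, ENNReal.ofReal CH * W i * ∫⁻ t in Set.Icc (τ - P) (τ + P),
        ENNReal.ofReal (‖DB (lam i) b y ((t : ℂ) * Complex.I)‖ ^ 2) :=
        Finset.sum_le_sum fun i _ => mul_le_mul' (hW i) le_rfl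
    _ = ENNReal.ofReal CH * ∑ i, W i * ∫⁻ t in Set.Icc (τ - P) (τ + P),
        ENNReal.ofReal (‖DB (lam i) b y ((t : ℂ) * Complex.I)‖ ^ 2) := by
        rw [Finset.mul_sum]
        exact Finset.sum_congr rfl fun i _ => by rw [mul_assoc]
    _ ≤ ENNReal.ofReal CH * ENNReal.ofReal (C * ((N : ℝ) * P * y) ^ ε *
        ((N : ℝ) ^ m * P ^ (m ^ 2)) * y * (1 + y / (N * P ^ m)) ^ m) :=
        mul_le_mul' le_rfl (h y b hy hb τ)
    _ = _ := by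
        rw [← ENNReal.ofReal_mul hCH]
        congr 1
        ring

open Classical in
/-- spherical forms -/
theorem db_sph (m : ℕ) (hm1 : 1 ≤ m) (ε : ℝ) (hε : 0 < ε) : ∃ C : ℝ, 0 < C ∧
    ∀ (N : ℕ) [NeZero N] (T : ℕ → Finset (ZM m)) (D : Set (V m)), SysZ m N T D →
      ∀ P : ℝ, 1 ≤ P → ∀ (S : Type) [Fintype S] [DecidableEq S]
        (F : S → Mat m → VN m N → ℂ) (lam : S → ℕ → ℂ) (mu : S → Fin m → ℂ) (W : S → ℝ),
        (∀ i, CuspU m N T (F i) (lam i) (mu i) ∧ Lip D (F i) P ∧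
          Monotone (fun j => (mu i j).im)) → Orthn D F → (∀ i, W i ≤ Wt (mu i)) →
          DBB m ε C (fun i => ENNReal.ofReal (W i)) lam N P := by
  obtain ⟨r, hr, hH⟩ := Pool.Agent.H27.L1.H52.GHK.c_HKW m hm1
  obtain ⟨CH, hCH, hH⟩ := hH ((m : ℝ) ^ 2)
  obtain ⟨C, hC, h⟩ := db_hn m hm1 r ε hr hε
  refine ⟨CH * C, by positivity, ?_⟩
  intro N _ T D hS P hP S _ _ F lam mu W hF ho hW
  have hO := Pool.Agent.H27.L1.H34.GHK.c_ORS m N T D hS S F lam mu (fun i => (hF i).1) ho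
  refine dbb_mul hCH.le (h N T D hS P hP S F lam
    (fun i => ⟨Pool.Agent.H27.L1.H46.GHK.cusB_of_cuspU (hF i).1, (hF i).2.1⟩) hO) fun i => ?_
  rw [← ENNReal.ofReal_mul hCH.le]
  apply ENNReal.ofReal_le_ofReal
  have hnz : NZ (F i) := Pool.Agent.H27.L1.H46.GHK.nz_of_norm hm1 hS.dom (hO.one i)
  obtain ⟨h1, h2⟩ := hH N T D hS (F i) (lam i) (mu i) (hF i).1 (hO.one i)
    (Pool.Agent.H27.L1.H46.GHK.re_bd (mu i) (hF i).1.tr0
      (fun j => Pool.Agent.H27.L1.H34.GU.b_APU m N T (F i) (lam i) (mu i) hm1 (hF i).1.toEigU hnz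
        j)) (hF i).2.2
  have hWt : 0 < Wt (mu i) := Pool.Agent.H27.L1.H46.GHK.wt_pos (mu i)
  refine (hW i).trans ?_
  rw [← div_eq_mul_inv, le_div_iff₀ h2]
  rw [le_div_iff₀ hWt] at h1
  linarith

open Classical in
/-- LSW: one level, all the weights -/
theorem lsw (m : ℕ) (hm1 : 1 ≤ m) (ε : ℝ) (hε : 0 < ε) : ∃ C : ℝ, 0 < C ∧
    ∀ (N : ℕ) [NeZero N] (T : ℕ → Finset (ZM m)) (D : Set (V m)), SysZ m N T D →
      ∀ P : ℝ, 1 ≤ P → ∀ (S : Type) [Fintype S] [DecidableEq S]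
        (F : S → Mat m → VN m N → ℂ) (lam : S → ℕ → ℂ) (W : S → ℝ),
        (∀ i, CusB m N T (F i) (lam i) ∧ Lip D (F i) P) → Orthn D F → (∀ i, 0 ≤ W i) →
        (∀ i, W i ≤ 1 ∨ (∃ mu : Fin m → ℂ, EigU m N T (F i) (lam i) mu ∧ W i ≤ pl mu) ∨
          ((∀ j, j ≠ i → ∀ u : Mat m, u.det ≠ 0 → ip D (rt u (F i)) (F j) = 0) ∧
            W i ≤ (Hn (1 / (2 * (m : ℝ))) D (F i))⁻¹)) →
          DBB m ε C (fun i => ENNReal.ofReal (W i)) lam N P := by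
  have hm0 : (0 : ℝ) < m := by exact_mod_cast hm1
  obtain ⟨C1, hC1, h1⟩ := db_one m hm1 ε hε
  obtain ⟨C2, hC2, h2⟩ := db_sph m hm1 ε hε
  obtain ⟨C3, hC3, h3⟩ := db_hn m hm1 (1 / (2 * (m : ℝ))) ε (by positivity) hε
  refine ⟨C1 + C2 + C3, by positivity, ?_⟩
  intro N _ T D hS P hP S _ _ F lam W hF ho hW0 hW
  have hb1 := h1 N T D hS P hP S F lam hF ho
  -- the three kinds
  obtain ⟨p2, hp2⟩ : ∃ p : S → Prop, p = fun i => ∃ mu : Fin m → ℂ,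
    EigU m N T (F i) (lam i) mu ∧ W i ≤ pl mu := ⟨_, rfl⟩
  obtain ⟨p3, hp3⟩ : ∃ p : S → Prop, p = fun i =>
    (∀ j, j ≠ i → ∀ u : Mat m, u.det ≠ 0 → ip D (rt u (F i)) (F j) = 0) ∧
      W i ≤ (Hn (1 / (2 * (m : ℝ))) D (F i))⁻¹ := ⟨_, rfl⟩
  have hp2' : ∀ i, p2 i → ∃ mu : Fin m → ℂ, EigU m N T (F i) (lam i) mu ∧ W i ≤ pl mu := by
    intro i hi
    rw [hp2] at hi
    exact hi
  have hp3' : ∀ i, p3 i → (∀ j, j ≠ i → ∀ u : Mat m, u.det ≠ 0 → ip D (rt u (F i)) (F j) = 0) ∧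
      W i ≤ (Hn (1 / (2 * (m : ℝ))) D (F i))⁻¹ := by
    intro i hi
    rw [hp3] at hi
    exact hi
  -- spherical forms
  have hmu : ∀ i : {i // p2 i}, ∃ mu : Fin m → ℂ, CuspU m N T (F i.1) (lam i.1) mu ∧
      Monotone (fun j => (mu j).im) ∧ W i.1 ≤ Wt mu := by
    intro i
    obtain ⟨mu, h5, h6⟩ := hp2' i.1 i.2
    have hmo : Monotone (fun j => ((mu ∘ Tuple.sort (fun j => (mu j).im)) j).im) :=
      Tuple.monotone_sort (fun j => (mu j).im)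
    refine ⟨mu ∘ Tuple.sort (fun j => (mu j).im), cuspU_of (hF i.1).1
      (Pool.Agent.H27.L1.H34.GHK.c_WYE m N T (F i.1) (lam i.1) mu _ h5), hmo, ?_⟩
    rw [← pl_mono _ hmo, pl_perm]
    exact h6
  choose mu hmu1 hmu2 hmu3 using hmu
  have hb2 := h2 N T D hS P hP {i // p2 i} (fun i => F i.1) (fun i => lam i.1) mu
    (fun i => W i.1) (fun i => ⟨hmu1 i, (hF i.1).2, hmu2 i⟩) (orthn_sub ho p2) hmu3
  -- forms with orthogonal translates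
  have hO3 : OrS D (fun i : {i // p3 i} => F i.1) := by
    refine ⟨fun i => mou_nU F ho i.1, fun i j hij u hu => ?_⟩
    exact (hp3' i.1 i.2).1 j.1 (fun h5 => hij (Subtype.ext h5.symm)) u hu
  have hb3 := h3 N T D hS P hP {i // p3 i} (fun i => F i.1) (fun i => lam i.1)
    (fun i => hF i.1) hO3
  intro y b hy hb τ
  obtain ⟨a, ha⟩ : ∃ a : S → ENNReal, a = fun i => ∫⁻ t in Set.Icc (τ - P) (τ + P),
      ENNReal.ofReal (‖DB (lam i) b y ((t : ℂ) * Complex.I)‖ ^ 2) := ⟨_, rfl⟩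
  obtain ⟨B, hB⟩ : ∃ B : ℝ, B = ((N : ℝ) * P * y) ^ ε * ((N : ℝ) ^ m * P ^ (m ^ 2)) * y *
        (1 + y / (N * P ^ m)) ^ m := ⟨_, rfl⟩
  have hB0 : 0 ≤ B := by
    rw [hB]
    positivity
  have hB1 : ∑ i, a i ≤ ENNReal.ofReal (C1 * B) := by
    have h4 := hb1 y b hy hb τ
    simp only [one_mul] at h4
    rw [ha, hB]
    refine h4.trans (le_of_eq ?_)
    congr 1
    ring
  have hB2 : ∑ i ∈ Finset.univ.filter p2, ENNReal.ofReal (W i) * a i ≤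
      ENNReal.ofReal (C2 * B) := by
    rw [Finset.sum_subtype (Finset.univ.filter p2) (p := p2) (fun i => by simp)
      (fun i => ENNReal.ofReal (W i) * a i), hB, ha]
    refine (hb2 y b hy hb τ).trans (le_of_eq ?_)
    congr 1
    ring
  have hB3 : ∑ i ∈ Finset.univ.filter p3,
      ENNReal.ofReal (Hn (1 / (2 * (m : ℝ))) D (F i))⁻¹ * a i ≤ ENNReal.ofReal (C3 * B) := by
    rw [Finset.sum_subtype (Finset.univ.filter p3) (p := p3) (fun i => by simp)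
      (fun i => ENNReal.ofReal (Hn (1 / (2 * (m : ℝ))) D (F i))⁻¹ * a i), hB, ha]
    refine (hb3 y b hy hb τ).trans (le_of_eq ?_)
    congr 1
    ring
  have hpt : ∀ i, ENNReal.ofReal (W i) * a i ≤ a i +
      (if p2 i then ENNReal.ofReal (W i) * a i else 0) +
      (if p3 i then ENNReal.ofReal (Hn (1 / (2 * (m : ℝ))) D (F i))⁻¹ * a i else 0) := by
    intro i
    rcases hW i with h4 | h4 | h4
    · refine le_trans ?_ (le_trans (le_self_add) le_self_add)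
      refine mul_le_of_le_one_left' ?_
      rw [← ENNReal.ofReal_one]
      exact ENNReal.ofReal_le_ofReal h4
    · have h7 : p2 i := by rw [hp2]; exact h4
      rw [if_pos h7]
      exact le_trans le_add_self le_self_add
    · have h7 : p3 i := by rw [hp3]; exact h4
      rw [if_pos h7]
      exact (mul_le_mul' (ENNReal.ofReal_le_ofReal h4.2) le_rfl).trans le_add_self
  calc ∑ i, ENNReal.ofReal (W i) * ∫⁻ t in Set.Icc (τ - P) (τ + P),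
        ENNReal.ofReal (‖DB (lam i) b y ((t : ℂ) * Complex.I)‖ ^ 2)
      = ∑ i, ENNReal.ofReal (W i) * a i := by rw [ha]
    _ ≤ ∑ i, (a i + (if p2 i then ENNReal.ofReal (W i) * a i else 0) +
        (if p3 i then ENNReal.ofReal (Hn (1 / (2 * (m : ℝ))) D (F i))⁻¹ * a i else 0)) :=
        Finset.sum_le_sum (fun i _ => hpt i)
    _ = ∑ i, a i + ∑ i ∈ Finset.univ.filter p2, ENNReal.ofReal (W i) * a i +
        ∑ i ∈ Finset.univ.filter p3,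
          ENNReal.ofReal (Hn (1 / (2 * (m : ℝ))) D (F i))⁻¹ * a i := by
        rw [Finset.sum_add_distrib, Finset.sum_add_distrib, Finset.sum_filter, Finset.sum_filter]
    _ ≤ ENNReal.ofReal (C1 * B) + ENNReal.ofReal (C2 * B) + ENNReal.ofReal (C3 * B) :=
        add_le_add (add_le_add hB1 hB2) hB3
    _ = _ := by
        rw [← ENNReal.ofReal_add (by positivity) (by positivity),
          ← ENNReal.ofReal_add (by positivity) (by positivity), hB]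
        congr 1
        ring

end Pool.Agent.H23.ZF
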