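import Pool.Agent.H27.ZF.TB
import Pool.Agent.H23.ZF.LSW

/-!
Board zf (MP_52e316_nt), row LSF: the large sieve in a window, all admissible weights, one dyadic block.
-/

set_option autoImplicit false

namespace Pool.Agent.H23.ZF

open MeasureTheory Pool.Agent.H27.L1.H34.GM Pool.Agent.H27.L1.H34.GZ Pool.Agent.H27.L1.H34.GU Pool.Agent.H27.L1.H34.GA
open Pool.Agent.H27.L1.H68.GHY Pool.Agent.H27.L1.H34.GHY
open Pool.Agent.H27.L1.H68.GHK (ip rt Hn)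
open Pool.Agent.H27.ZF (Bk Fam T_LSF)

open Classical in
/-- the coefficients adapted to the real part `σ` -/
noncomputable def sb (b : ℕ → ℂ) (r : ℕ) (σ : ℝ) (n : ℕ) : ℂ :=
  if n ∈ Bk r then b n * ((((2 : ℝ) ^ r / 2 / n) ^ σ : ℝ) : ℂ) else 0

lemma mem_bk {r n : ℕ} (h : n ∈ Bk r) : (2 : ℝ) ^ r / 2 < n ∧ (n : ℝ) ≤ 2 ^ r ∧ 1 ≤ n := by
  unfold Bk at h
  obtain ⟨h1, h2⟩ := Finset.mem_Ioc.1 h
  have h3 : 2 ^ r < 2 * n := by omega
  have h4 : ((2 ^ r : ℕ) : ℝ) < ((2 * n : ℕ) : ℝ) := by exact_mod_cast h3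
  have h5 : ((n : ℕ) : ℝ) ≤ ((2 ^ r : ℕ) : ℝ) := by exact_mod_cast h2
  push_cast at h4 h5
  refine ⟨by linarith, h5, by omega⟩

lemma coe_sb {b : ℕ → ℂ} (hb : ∀ n, ‖b n‖ ≤ 1) (r : ℕ) {σ : ℝ} (hσ : 0 ≤ σ) :
    Coe ((2 : ℝ) ^ r) (sb b r σ) := by
  constructor
  · intro n
    unfold sb
    split_ifs with h
    · obtain ⟨h1, h2, h3⟩ := mem_bk h
      have hn0 : (0 : ℝ) < n := by exact_mod_cast h3
      rw [norm_mul, Complex.norm_real, Real.norm_eq_abs,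
        abs_of_nonneg (Real.rpow_nonneg (by positivity) _)]
      have h4 : ((2 : ℝ) ^ r / 2 / n) ^ σ ≤ 1 := by
        apply Real.rpow_le_one (by positivity) _ hσ
        rw [div_le_one hn0]
        exact h1.le
      exact mul_le_one₀ (hb n) (Real.rpow_nonneg (by positivity) _) h4
    · rw [norm_zero]
      exact zero_le_one
  · intro n hn
    unfold sb at hn
    by_cases h : n ∈ Bk r
    · obtain ⟨h1, h2, _⟩ := mem_bk h
      exact ⟨h1, h2⟩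
    · rw [if_neg h] at hn
      exact absurd rfl hn

lemma db_sb (lam b : ℕ → ℂ) (r : ℕ) (σ u : ℝ) :
    Pool.Agent.H27.ZF.DB lam b r (σ + u * Complex.I) =
      ((((2 : ℝ) ^ r / 2) ^ (-σ) : ℝ) : ℂ) * DB lam (sb b r σ) ((2 : ℝ) ^ r) ((u : ℂ) * Complex.I) := by
  unfold Pool.Agent.H27.ZF.DB DB
  have hfl : ⌊(2 : ℝ) ^ r⌋₊ = 2 ^ r := by
    have : ((2 : ℝ) ^ r) = ((2 ^ r : ℕ) : ℝ) := by push_cast; rfl
    rw [this, Nat.floor_natCast]
  have hsub : Bk r ⊆ Finset.Icc 1 (2 ^ r) := by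
    intro n hn
    obtain ⟨_, _, h3⟩ := mem_bk hn
    unfold Bk at hn
    exact Finset.mem_Icc.2 ⟨h3, (Finset.mem_Ioc.1 hn).2⟩
  rw [hfl, ← Finset.sum_subset hsub (f := fun n : ℕ => sb b r σ n * lam n *
    (n : ℂ) ^ (-((u : ℂ) * Complex.I)))
    (fun n _ hn => by
      unfold sb
      rw [if_neg hn, zero_mul, zero_mul]), Finset.mul_sum]
  refine Finset.sum_congr rfl fun n hn => ?_
  obtain ⟨h1, h2, h3⟩ := mem_bk hn
  have hn0 : (0 : ℝ) < n := by exact_mod_cast h3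
  have hnc : (n : ℂ) ≠ 0 := by
    have : n ≠ 0 := by omega
    exact_mod_cast this
  unfold sb
  rw [if_pos hn]
  have e1 : (n : ℂ) ^ (-((σ : ℂ) + (u : ℂ) * Complex.I)) =
      (((n : ℝ) ^ (-σ) : ℝ) : ℂ) * (n : ℂ) ^ (-((u : ℂ) * Complex.I)) := by
    rw [neg_add, Complex.cpow_add _ _ hnc, Complex.ofReal_cpow hn0.le]
    push_cast
    rfl
  have e2 : (((2 : ℝ) ^ r / 2) ^ (-σ)) * (((2 : ℝ) ^ r / 2 / n) ^ σ) = (n : ℝ) ^ (-σ) := by
    have h4 : (0 : ℝ) < 2 ^ r / 2 := by positivity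
    rw [Real.div_rpow h4.le hn0.le, Real.rpow_neg h4.le, Real.rpow_neg hn0.le]
    have h5 : ((2 : ℝ) ^ r / 2) ^ σ ≠ 0 := (Real.rpow_pos_of_pos h4 _).ne'
    field_simp
  rw [e1, ← e2]
  push_cast
  ring

/-- numbers -/
lemma sf_num {m r : ℕ} {B ε C N P σ : ℝ} (hm1 : 1 ≤ m) (hε : 0 < ε) (hC : 0 < C) (hN : 1 ≤ N)
    (hP : 1 ≤ P) (hσB : σ ≤ B) (hr : (2 : ℝ) ^ r ≤ N * P ^ m) :
    (((2 : ℝ) ^ r / 2) ^ (-σ)) ^ 2 * (C * (N * P * 2 ^ r) ^ (ε / (m + 1)) * (N ^ m * P ^ (m ^ 2)) *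
      2 ^ r * (1 + 2 ^ r / (N * P ^ m)) ^ m) ≤
    2 ^ (2 * B) * 2 ^ m * C * (N * P) ^ ε * (N ^ m * P ^ (m ^ 2)) *
      (2 : ℝ) ^ ((r : ℝ) * (1 - 2 * σ)) := by
  have hN0 : 0 < N := by linarith
  have hP0 : 0 < P := by linarith
  have hm0 : (0 : ℝ) < m := by exact_mod_cast hm1
  have hNP : 1 ≤ N * P := by nlinarith
  have hy0 : (0 : ℝ) < 2 ^ r := by positivity
  have h1 : (N * P * 2 ^ r) ^ (ε / (m + 1)) ≤ (N * P) ^ ε := by
    have h2 : (2 : ℝ) ^ r ≤ (N * P) ^ m := by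
      refine hr.trans ?_
      rw [mul_pow]
      refine mul_le_mul_of_nonneg_right ?_ (by positivity)
      exact le_self_pow₀ hN (by omega)
    have h3 : N * P * 2 ^ r ≤ (N * P) ^ (m + 1) := by
      rw [pow_succ, mul_comm]
      exact mul_le_mul_of_nonneg_right h2 (by positivity)
    refine (Real.rpow_le_rpow (by positivity) h3 (by positivity)).trans (le_of_eq ?_)
    rw [← Real.rpow_natCast, ← Real.rpow_mul (by positivity)]
    congr 1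
    push_cast
    field_simp
  have h2 : (1 + 2 ^ r / (N * P ^ m)) ^ m ≤ 2 ^ m := by
    have : 2 ^ r / (N * P ^ m) ≤ 1 := by
      rw [div_le_one (by positivity)]
      exact hr
    exact pow_le_pow_left₀ (by positivity) (by linarith) m
  have h3 : (((2 : ℝ) ^ r / 2) ^ (-σ)) ^ 2 * 2 ^ r ≤ 2 ^ (2 * B) *
      (2 : ℝ) ^ ((r : ℝ) * (1 - 2 * σ)) := by
    have e1 : (((2 : ℝ) ^ r / 2) ^ (-σ)) ^ 2 = (2 : ℝ) ^ (((r : ℝ) - 1) * (-(2 * σ))) := by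
      have : (2 : ℝ) ^ r / 2 = (2 : ℝ) ^ ((r : ℝ) - 1) := by
        rw [Real.rpow_sub (by norm_num), Real.rpow_natCast, Real.rpow_one]
      rw [this, ← Real.rpow_natCast, ← Real.rpow_mul (by positivity), ← Real.rpow_mul (by norm_num)]
      congr 1
      push_cast
      ring
    rw [e1, ← Real.rpow_natCast 2 r, ← Real.rpow_add (by norm_num), ← Real.rpow_add (by norm_num)]
    apply Real.rpow_le_rpow_of_exponent_le (by norm_num)
    nlinarith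
  calc (((2 : ℝ) ^ r / 2) ^ (-σ)) ^ 2 * (C * (N * P * 2 ^ r) ^ (ε / (m + 1)) *
        (N ^ m * P ^ (m ^ 2)) * 2 ^ r * (1 + 2 ^ r / (N * P ^ m)) ^ m)
      = C * ((N * P * 2 ^ r) ^ (ε / (m + 1))) * (N ^ m * P ^ (m ^ 2)) *
        ((((2 : ℝ) ^ r / 2) ^ (-σ)) ^ 2 * 2 ^ r) * ((1 + 2 ^ r / (N * P ^ m)) ^ m) := by ring
    _ ≤ C * ((N * P) ^ ε) * (N ^ m * P ^ (m ^ 2)) * (2 ^ (2 * B) *
      (2 : ℝ) ^ ((r : ℝ) * (1 - 2 * σ))) * 2 ^ m := by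
        gcongr
    _ = _ := by ring

/-- LSF -/
theorem pf_LSF : T_LSF := by
  intro m B ε hm1 hB hε
  have hm0 : (0 : ℝ) < m := by exact_mod_cast hm1
  obtain ⟨C, hC, h⟩ := lsw m hm1 (ε / (m + 1)) (by positivity)
  refine ⟨2 ^ (2 * B) * 2 ^ m * C, by positivity, ?_⟩
  intro N _ T D hS P hP S _ _ F lam W hFam r hr b hb σ τ hσ hσB
  have hN1 : (1 : ℝ) ≤ N := by
    have := hS.two_le
    exact_mod_cast (by omega : 1 ≤ N)
  have h1 := h N T D hS P hP S F lam W hFam.cus hFam.orth hFam.nn hFam.wt ((2 : ℝ) ^ r)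
    (sb b r σ) (one_le_pow₀ (by norm_num)) (coe_sb hb r hσ) τ
  obtain ⟨c, hc⟩ : ∃ c : ℝ, c = ((2 : ℝ) ^ r / 2) ^ (-σ) := ⟨_, rfl⟩
  have hc0 : 0 < c := by
    rw [hc]
    positivity
  have h2 : ∀ i, ∫⁻ t in Set.Icc (-P) P,
      ENNReal.ofReal (‖Pool.Agent.H27.ZF.DB (lam i) b r (σ + (t + τ) * Complex.I)‖ ^ 2) =
      ENNReal.ofReal (c ^ 2) * ∫⁻ t in Set.Icc (τ - P) (τ + P),
        ENNReal.ofReal (‖DB (lam i) (sb b r σ) ((2 : ℝ) ^ r) ((t : ℂ) * Complex.I)‖ ^ 2) := by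
    intro i
    have e1 := (measurePreserving_add_right (volume : Measure ℝ) τ).setLIntegral_comp_preimage_emb
      (measurableEmbedding_addRight τ)
      (fun t : ℝ => ENNReal.ofReal (‖DB (lam i) (sb b r σ) ((2 : ℝ) ^ r)
        ((t : ℂ) * Complex.I)‖ ^ 2))
      (Set.Icc (τ - P) (τ + P))
    rw [Set.preimage_add_const_Icc, show τ - P - τ = -P by ring,
      show τ + P - τ = P by ring] at e1
    rw [← e1, ← lintegral_const_mul' _ _ ENNReal.ofReal_ne_top]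
    refine lintegral_congr fun t => ?_
    have e2 := db_sb (lam i) b r σ (t + τ)
    rw [Complex.ofReal_add] at e2
    rw [e2, ← hc, ← ENNReal.ofReal_mul (by positivity), norm_mul, Complex.norm_real,
      Real.norm_eq_abs, abs_of_pos hc0, mul_pow]
    push_cast
    rfl
  calc ∑ i, ENNReal.ofReal (W i) * ∫⁻ t in Set.Icc (-P) P,
        ENNReal.ofReal (‖Pool.Agent.H27.ZF.DB (lam i) b r (σ + (t + τ) * Complex.I)‖ ^ 2)
      = ENNReal.ofReal (c ^ 2) * ∑ i, ENNReal.ofReal (W i) * ∫⁻ t in Set.Icc (τ - P) (τ + P),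
        ENNReal.ofReal (‖DB (lam i) (sb b r σ) ((2 : ℝ) ^ r) ((t : ℂ) * Complex.I)‖ ^ 2) := by
        rw [Finset.mul_sum]
        refine Finset.sum_congr rfl fun i _ => ?_
        rw [h2 i]
        ring
    _ ≤ ENNReal.ofReal (c ^ 2) * ENNReal.ofReal (C * ((N : ℝ) * P * 2 ^ r) ^ (ε / (m + 1)) *
        ((N : ℝ) ^ m * P ^ (m ^ 2)) * 2 ^ r * (1 + 2 ^ r / (N * P ^ m)) ^ m) := by
        gcongr
    _ = ENNReal.ofReal (c ^ 2 * (C * ((N : ℝ) * P * 2 ^ r) ^ (ε / (m + 1)) *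
        ((N : ℝ) ^ m * P ^ (m ^ 2)) * 2 ^ r * (1 + 2 ^ r / (N * P ^ m)) ^ m)) := by
        rw [← ENNReal.ofReal_mul (by positivity)]
    _ ≤ _ := by
        apply ENNReal.ofReal_le_ofReal
        rw [hc]
        exact sf_num hm1 hε hC hN1 hP hσB hr

end Pool.Agent.H23.ZF
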