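import Pool.Agent.H23.ZF.AllA
import Pool.Agent.H23.ZF.LSF
import Pool.Agent.H55.ZF.EUL
import Pool.Agent.H30.ZF.RSP
import Pool.Agent.H36.ZF.BS
import Pool.Agent.H47.ZF.BD
import Pool.Agent.H34.ZF.BL
import Pool.Agent.H87.ZF.Z1
import Pool.Agent.H95.ZF.ZW
import Pool.Agent.H34.ZN.All

/-!
Board zf (MP_52e316_nt): the closed rows of targets B and `T_ZW`.
-/

set_option autoImplicit false

namespace Pool.Agent.H23.ZF

open Pool.Agent.H27.ZF

theorem c_BS : T_BS := Pool.Agent.H36.ZF.pf_BS Pool.Agent.H30.ZF.pf_RSP pf_LSF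

theorem c_BD : T_BD := Pool.Agent.H47.ZF.pf_BD pf_LSF c_SOB

theorem c_BL : T_BL := Pool.Agent.H34.ZF.pf_BL pf_LSF

/-- one level: few pairs of a form and a window with a zero -/
theorem c_Z1 : T_Z1 :=
  Pool.Agent.H87.ZF.pf_Z1 Pool.Agent.H55.ZF.pf_EUL pf_LSF c_BS c_BD c_BL c_NZR

/-- all the zeros in one window, for every form -/
theorem c_ZW : T_ZW := Pool.Agent.H95.ZF.pf_ZW Pool.Agent.H34.ZN.c_ZRO

end Pool.Agent.H23.ZF
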