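import Pool.Agent.H87.ZF.Z1
import Pool.Agent.H78.ZF.NZL

/-!
Board zf (MP_52e316_nt): row Z1L, few pairs of a form and a window where the L-function is not between
`Q ^ (-e)` and `Q ^ e`.
-/

set_option autoImplicit false

namespace Pool.Agent.H23.ZF

open MeasureTheory Pool.Agent.H27.L1.H34.GM Pool.Agent.H27.L1.H34.GZ Pool.Agent.H27.L1.H34.GU
  Pool.Agent.H27.L1.H34.GA
open Pool.Agent.H27.ZF
open Pool.Agent.H78.ZF (T_NZL)
open Pool.Agent.H87.ZF (nU_of_orthn card_le lam_le wsum)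

/-- the value of the L-function is not between `Q ^ (-e)` and `Q ^ e` -/
def Out (Q e : ℝ) (z : ℂ) : Prop := ‖z‖ < Q ^ (-e) ∨ Q ^ e < ‖z‖

open Classical in
/-- one level: few pairs of a form and a window with a value out of the range -/
def T_Z1L : Prop := ∀ (m : ℕ) (d e : ℝ), 1 ≤ m → 0 < d → 0 < e → ∃ c C : ℝ, 0 < c ∧ 0 < C ∧
  ∀ (N : ℕ) [NeZero N] (T : ℕ → Finset (ZM m)) (D : Set (V m)), SysZ m N T D →
  ∀ P : ℝ, 1 ≤ P → ∀ (S : Type) [Fintype S] [DecidableEq S] (F : S → Mat m → VN m N → ℂ)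
    (lam : S → ℕ → ℂ) (W : S → ℝ), Fam T D P F lam W →
  ∀ L : S → ℂ → ℂ, (∀ i, IsL m 1 (lam i) (L i)) →
    ∑ i, W i * (((Finset.Icc (-⌊P⌋) ⌊P⌋).filter (fun k : ℤ => ∃ s : ℂ, 1 / 2 + d ≤ s.re ∧
      |s.im - k| ≤ 1 ∧ Out ((N : ℝ) * P ^ m) e (L i s))).card : ℝ) ≤
      C * ((N : ℝ) * P ^ m) ^ ((m : ℝ) - c)

theorem pf_Z1L (hEUL : Pool.Agent.H27.ZF.T_EUL) (hLSF : T_LSF) (hBS : T_BS) (hBD : T_BD)
    (hBL : T_BL) (hNZL : T_NZL) : T_Z1L := by
  classical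
  intro m d0 e hm hd0 he
  obtain ⟨d, hd, hd2, hdd⟩ : ∃ d : ℝ, 0 < d ∧ d ≤ 1 / 2 ∧ d ≤ d0 :=
    ⟨min d0 (1 / 2), lt_min hd0 (by norm_num), min_le_right _ _, min_le_left _ _⟩
  obtain ⟨CT, hCT0, hCT⟩ := Pool.Agent.H27.L1.H34.GZ.a_TNZ m hm
  obtain ⟨σ2, hσ2, hfar⟩ := Pool.Agent.H31.ZN.pf_FAR Pool.Agent.H27.L1.H34.GZ.a_TNZ m hm
  obtain ⟨c1, k0, B, Q1, hc1, hk0, hB, hB1, hQ1', hNZ⟩ :=
    hNZL m d (max 1 (2 * CT)) e σ2 hm hd hd2 (le_max_left _ _) he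
  obtain ⟨c, hc, hcc1, hce⟩ : ∃ c : ℝ, 0 < c ∧ c ≤ c1 ∧ c ≤ e :=
    ⟨min c1 e, lt_min hc1 he, min_le_left _ _, min_le_right _ _⟩
  obtain ⟨Q0, hQ0, hQ01, hQ02⟩ : ∃ Q0 : ℝ, 1 ≤ Q0 ∧ Q1 ≤ Q0 ∧ (2 : ℝ) ^ (1 / e) ≤ Q0 :=
    ⟨max Q1 ((2 : ℝ) ^ (1 / e)), le_trans hQ1' (le_max_left _ _), le_max_left _ _, le_max_right _ _⟩
  obtain ⟨CF, hCF, hWS⟩ := wsum hLSF m c hm hc
  obtain ⟨CS, hCS, hS'⟩ := hBS m c hm hc
  obtain ⟨CD, hCD, hD'⟩ := hBD m (B + 1) c hm (by linarith) hc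
  obtain ⟨CL, hCL, hL'⟩ := hBL m (d / 2) (B + 1) c hm (by positivity) (by linarith) (by linarith) hc
  have hQ00 : 0 < Q0 := by linarith
  refine ⟨c, 3 * CS + CD + CL + 2 * CF * Q0 ^ (2 * c), hc, by positivity, ?_⟩
  intro N _ T D hS P hP S _ _ F lam W hF L hL
  have hN1 : (1 : ℝ) ≤ N := by exact_mod_cast (NeZero.one_le (n := N))
  have hN0 : (0 : ℝ) < N := by linarith
  have hP0 : 0 < P := by linarith
  have hmR : (1 : ℝ) ≤ m := by exact_mod_cast hm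
  have hnz : ∀ i, NZ (F i) := fun i => Pool.Agent.H69.ZN.nz_of_one hS (nU_of_orthn hF.orth i)
  have hE : ∀ i, ∃ q : ℕ → ℕ → ℂ, Eul m (lam i) q := fun i =>
    hEUL m N T D hS (F i) (lam i) (hF.cus i).1.toHecA (hnz i)
  have hl1 : ∀ i, lam i 1 = 1 := fun i => by
    obtain ⟨q, hq⟩ := hE i
    exact hq.one
  obtain ⟨Q, hQ⟩ : ∃ Q : ℝ, Q = (N : ℝ) * P ^ m := ⟨_, rfl⟩
  have hPm : 1 ≤ P ^ m := one_le_pow₀ hP
  have hQ1 : 1 ≤ Q := by
    rw [hQ]
    calc (1 : ℝ) = 1 * 1 := (one_mul _).symm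
      _ ≤ N * P ^ m := mul_le_mul hN1 hPm zero_le_one (by positivity)
  have hQp : 0 < Q := by linarith
  have hNP : ((N : ℝ) * P) ^ c ≤ Q ^ c := by
    refine Real.rpow_le_rpow (by positivity) ?_ hc.le
    rw [hQ]
    refine mul_le_mul_of_nonneg_left ?_ hN0.le
    calc P = P ^ 1 := (pow_one _).symm
      _ ≤ P ^ m := pow_le_pow_right₀ hP hm
  have hQm : (N : ℝ) ^ m * P ^ (m ^ 2) = Q ^ (m : ℝ) := by
    rw [Real.rpow_natCast, hQ, mul_pow, ← pow_mul, sq]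
  have hsz : ∀ C x : ℝ, 0 ≤ C → C * ((N : ℝ) * P) ^ c * ((N : ℝ) ^ m * P ^ (m ^ 2)) / Q ^ x ≤
      C * Q ^ ((m : ℝ) + c - x) := by
    intro C x hC
    rw [hQm, div_eq_mul_inv, ← Real.rpow_neg hQp.le]
    calc C * ((N : ℝ) * P) ^ c * Q ^ (m : ℝ) * Q ^ (-x) ≤ C * Q ^ c * Q ^ (m : ℝ) * Q ^ (-x) := by
          gcongr
      _ = C * Q ^ ((m : ℝ) + c - x) := by
          rw [mul_assoc, mul_assoc, ← Real.rpow_add hQp, ← Real.rpow_add hQp]
          congr 2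
          ring
  rw [← hQ]
  rcases le_or_gt Q0 Q with hQQ | hQQ
  · -- large conductor
    have hA1 : 1 ≤ Q ^ c := Real.one_le_rpow hQ1 hc.le
    have hA1' : 1 ≤ Q ^ c1 := Real.one_le_rpow hQ1 hc1.le
    have hA2 : 1 ≤ Q ^ (2 * c1) := Real.one_le_rpow hQ1 (by linarith)
    have hQe : 2 ≤ Q ^ e := by
      calc (2 : ℝ) = ((2 : ℝ) ^ (1 / e)) ^ e := by
            rw [← Real.rpow_mul (by norm_num), one_div, inv_mul_cancel₀ he.ne', Real.rpow_one]
        _ ≤ Q ^ e := Real.rpow_le_rpow (by positivity) (hQ02.trans hQQ) he.le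
    have hQe' : Q ^ (-e) ≤ 1 / 2 := by
      rw [Real.rpow_neg hQp.le, one_div]
      exact inv_anti₀ (by norm_num) hQe
    have eS := hS' N T D hS P hP S F lam W hF (Q ^ (2 * c1)) hA2
    have eD := hD' N T D hS P hP S F lam W hF (k0 * Real.log Q) (Q ^ (1 / (4 * (m : ℝ))))
      (Q ^ c1) hA1'
    have eL := hL' N T D hS P hP S F lam W hF L hL (Q ^ c) hA1
    rw [← hQ] at eS eD
    have hp2 : (Q ^ c1) ^ 2 = Q ^ (2 * c1) := by
      rw [← Real.rpow_natCast, ← Real.rpow_mul hQp.le]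
      congr 1
      push_cast
      ring
    have hp4 : (Q ^ c) ^ 4 = Q ^ (4 * c) := by
      rw [← Real.rpow_natCast, ← Real.rpow_mul hQp.le]
      congr 1
      push_cast
      ring
    rw [hp2] at eD
    rw [hp4] at eL
    have fS := eS.trans (hsz CS (2 * c1) hCS.le)
    have fD := eD.trans (hsz CD (2 * c1) hCD.le)
    have fL := eL.trans (hsz CL (4 * c) hCL.le)
    have g1 : Q ^ ((m : ℝ) + c - 2 * c1) ≤ Q ^ ((m : ℝ) - c) :=
      Real.rpow_le_rpow_of_exponent_le hQ1 (by linarith)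
    have g2 : Q ^ ((m : ℝ) + c - 4 * c) ≤ Q ^ ((m : ℝ) - c) :=
      Real.rpow_le_rpow_of_exponent_le hQ1 (by linarith)
    have fS' := fS.trans (mul_le_mul_of_nonneg_left g1 hCS.le)
    have fD' := fD.trans (mul_le_mul_of_nonneg_left g1 hCD.le)
    have fL' := fL.trans (mul_le_mul_of_nonneg_left g2 hCL.le)
    have key : ∀ i, W i * (((Finset.Icc (-⌊P⌋) ⌊P⌋).filter (fun k : ℤ => ∃ s : ℂ,
        1 / 2 + d0 ≤ s.re ∧ |s.im - k| ≤ 1 ∧ Out Q e (L i s))).card : ℝ) ≤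
        3 * ((if Sq (lam i) Q (Q ^ (2 * c1)) then 0 else W i) * P) +
        W i * (((Finset.Icc (-⌊P⌋) ⌊P⌋).filter (fun k : ℤ => ∃ s : ℂ, 1 / 2 ≤ s.re ∧ s.re ≤ B + 1 ∧
          |s.im - k| ≤ B + 1 ∧ ¬ Dp m (lam i) Q (k0 * Real.log Q) (Q ^ (1 / (4 * (m : ℝ))))
            (Q ^ c1) s)).card : ℝ) +
        W i * (((Finset.Icc (-⌊P⌋) ⌊P⌋).filter (fun k : ℤ => ∃ s : ℂ, 1 / 2 + d / 2 ≤ s.re ∧
          s.re ≤ B + 1 ∧ |s.im - k| ≤ B + 1 ∧ Q ^ c < ‖L i s‖)).card : ℝ) := by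
      intro i
      have hW := hF.nn i
      by_cases hSq : Sq (lam i) Q (Q ^ (2 * c1))
      · rw [if_pos hSq, zero_mul, mul_zero, zero_add, ← mul_add]
        refine mul_le_mul_of_nonneg_left ?_ hW
        rw [← Nat.cast_add]
        refine Nat.cast_le.2 (le_trans (Finset.card_le_card ?_) (Finset.card_union_le _ _))
        intro k hk
        rw [Finset.mem_filter] at hk
        obtain ⟨hk1, s0, hs0, hs1, hs2⟩ := hk
        rw [Finset.mem_union, Finset.mem_filter, Finset.mem_filter]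
        by_contra hcon
        push Not at hcon
        obtain ⟨hd1, hd2'⟩ := hcon
        have hd1 := hd1 hk1
        have hd2' := hd2' hk1
        rcases le_or_gt σ2 s0.re with hr | hr
        · have h1 := hfar N T D hS (F i) (lam i) (hF.cus i).1 (hnz i) (L i) (hL i) s0 hr
          have h2 : ‖(1 : ℂ)‖ ≤ ‖L i s0‖ + ‖L i s0 - 1‖ := by
            calc ‖(1 : ℂ)‖ = ‖L i s0 - (L i s0 - 1)‖ := by ring_nf
              _ ≤ _ := norm_sub_le _ _
          have h3 : ‖L i s0‖ ≤ ‖L i s0 - 1‖ + ‖(1 : ℂ)‖ := by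
            calc ‖L i s0‖ = ‖(L i s0 - 1) + 1‖ := by ring_nf
              _ ≤ _ := norm_add_le _ _
          rw [norm_one] at h2 h3
          rcases hs2 with h4 | h4 <;> linarith
        · obtain ⟨q, hq⟩ := hE i
          rcases hs2 with h4 | h4
          · refine absurd h4 (not_lt.2 ?_)
            refine hNZ (lam i) q (L i) Q s0.im (hQ01.trans hQQ) hq
              (fun n hn => lam_le hS (hF.cus i).1.toHecA (hnz i) hm (hCT T hS.reps) hn) (hL i).1 ?_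
              hSq ?_ s0 (by linarith) hr.le rfl
            · intro s hs
              have h1 := (hL i).2 s hs
              have h2 : (fun n : ℕ => if 1 ≤ n ∧ n.Coprime 1 then lam i n * (n : ℂ) ^ (-s) else 0) =
                  fun n : ℕ => if 1 ≤ n then lam i n * (n : ℂ) ^ (-s) else 0 := by
                funext n
                have h3 : (1 ≤ n ∧ n.Coprime 1) ↔ 1 ≤ n :=
                  ⟨fun h => h.1, fun h => ⟨h, Nat.coprime_one_right n⟩⟩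
                simp only [h3]
              rw [h2] at h1
              exact h1
            · intro s h1 h2 h3
              have h4 : |s.im - k| ≤ B + 1 := by
                calc |s.im - k| = |(s.im - s0.im) + (s0.im - k)| := by ring_nf
                  _ ≤ |s.im - s0.im| + |s0.im - k| := abs_add_le _ _
                  _ ≤ B + 1 := by linarith
              exact ⟨(hd2' s h1 (by linarith) h4).trans
                (Real.rpow_le_rpow_of_exponent_le hQ1 hcc1), hd1 s (by linarith) (by linarith) h4⟩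
          · have h5 := hd2' s0 (by linarith) (by linarith) (by linarith)
            have h6 : Q ^ c ≤ Q ^ e := Real.rpow_le_rpow_of_exponent_le hQ1 hce
            linarith
      · rw [if_neg hSq]
        have h1 := card_le hP (fun k : ℤ => ∃ s : ℂ, 1 / 2 + d0 ≤ s.re ∧ |s.im - k| ≤ 1 ∧ Out Q e (L i s))
        have h2 := mul_le_mul_of_nonneg_left h1 hW
        refine h2.trans ?_
        have h3 : 0 ≤ W i * (((Finset.Icc (-⌊P⌋) ⌊P⌋).filter (fun k : ℤ => ∃ s : ℂ, 1 / 2 ≤ s.re ∧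
          s.re ≤ B + 1 ∧
          |s.im - k| ≤ B + 1 ∧ ¬ Dp m (lam i) Q (k0 * Real.log Q) (Q ^ (1 / (4 * (m : ℝ))))
            (Q ^ c1) s)).card : ℝ) := by positivity
        have h4 : 0 ≤ W i * (((Finset.Icc (-⌊P⌋) ⌊P⌋).filter (fun k : ℤ => ∃ s : ℂ,
          1 / 2 + d / 2 ≤ s.re ∧
          s.re ≤ B + 1 ∧ |s.im - k| ≤ B + 1 ∧ Q ^ c < ‖L i s‖)).card : ℝ) := by positivity
        linarith
    refine (Finset.sum_le_sum fun i _ => key i).trans ?_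
    rw [Finset.sum_add_distrib, Finset.sum_add_distrib, ← Finset.mul_sum]
    have hz : 0 ≤ 2 * CF * Q0 ^ (2 * c) * Q ^ ((m : ℝ) - c) := by positivity
    calc _ ≤ 3 * (CS * Q ^ ((m : ℝ) - c)) + CD * Q ^ ((m : ℝ) - c) + CL * Q ^ ((m : ℝ) - c) := by
          gcongr
      _ ≤ _ := by
          rw [add_mul, add_mul, add_mul]
          linarith
  · -- small conductor
    have h1 := hWS N T D hS P hP S F lam W hF hl1
    have h2 := hsz CF 0 hCF.le
    rw [Real.rpow_zero, div_one, sub_zero] at h2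
    have h3 : ∑ i, W i * (((Finset.Icc (-⌊P⌋) ⌊P⌋).filter (fun k : ℤ => ∃ s : ℂ,
        1 / 2 + d0 ≤ s.re ∧ |s.im - k| ≤ 1 ∧ Out Q e (L i s))).card : ℝ) ≤ ∑ i, W i * (3 * P) :=
      Finset.sum_le_sum fun i _ => mul_le_mul_of_nonneg_left (card_le hP _) (hF.nn i)
    rw [← Finset.sum_mul] at h3
    have h4 : Q ^ ((m : ℝ) + c) ≤ Q0 ^ (2 * c) * Q ^ ((m : ℝ) - c) := by
      have h5 : Q ^ ((m : ℝ) + c) = Q ^ (2 * c) * Q ^ ((m : ℝ) - c) := by
        rw [← Real.rpow_add hQp]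
        congr 1
        ring
      rw [h5]
      refine mul_le_mul_of_nonneg_right ?_ (by positivity)
      exact Real.rpow_le_rpow hQp.le hQQ.le (by linarith)
    have h6 : 2 * P * ∑ i, W i ≤ CF * (Q0 ^ (2 * c) * Q ^ ((m : ℝ) - c)) :=
      h1.trans (h2.trans (mul_le_mul_of_nonneg_left h4 hCF.le))
    have h7 : (∑ i, W i) * (3 * P) ≤ 2 * (CF * (Q0 ^ (2 * c) * Q ^ ((m : ℝ) - c))) := by
      have h8 : 0 ≤ P * ∑ i, W i := mul_nonneg hP0.le (Finset.sum_nonneg fun i _ => hF.nn i)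
      nlinarith
    refine h3.trans (h7.trans ?_)
    have h9 : 0 ≤ (3 * CS + CD + CL) * Q ^ ((m : ℝ) - c) := by positivity
    calc 2 * (CF * (Q0 ^ (2 * c) * Q ^ ((m : ℝ) - c))) ≤
          (3 * CS + CD + CL) * Q ^ ((m : ℝ) - c) +
            2 * (CF * (Q0 ^ (2 * c) * Q ^ ((m : ℝ) - c))) := by linarith
      _ = _ := by ring

end Pool.Agent.H23.ZF
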