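import Pool.Agent.H23.ZF.AllB
import Pool.Agent.H23.ZF.Z1L

/-!
Board zf (MP_52e316_nt): `T_Z1L` without hypotheses.
-/

set_option autoImplicit false

namespace Pool.Agent.H23.ZF

open Pool.Agent.H27.ZF

theorem c_NZL : Pool.Agent.H78.ZF.T_NZL :=
  Pool.Agent.H78.ZF.pf_NZL Pool.Agent.H40.ZF.pf_HTC c_PRD Pool.Agent.H69.ZF.pf_EPR
    Pool.Agent.H5.ZF.pf_TAI

/-- one level: few pairs of a form and a window with a value of the L-function out of the range -/
theorem c_Z1L : T_Z1L := pf_Z1L Pool.Agent.H55.ZF.pf_EUL pf_LSF c_BS c_BD c_BL c_NZL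

end Pool.Agent.H23.ZF
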